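import Mathlib
import Pool.Agent.Zk75.ZM.Final

/-!
# Periodic expansions of `ζ(11), …, ζ(27)`, each number in its own base

A rational number has an eventually periodic expansion in every base. If the digits of all the nine
numbers `ζ(11), ζ(13), …, ζ(27)`, each in its own base `b j`, were periodic from the place `r j + 1`
to the place `R j` with period `s j`, then one `R j log (b j)` would be at most `696` times the
logarithm of the least common multiple of the numbers `b j ^ r j (b j ^ s j - 1)`, up to a constant
which depends only on the bases.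

The proof: the denominators of the periodic expansions are controlled by one of the primes
`p = 1 mod 24` between `(25/46) log q` and `0.54358 log q`, because not all these primes divide the
common denominator `q`: for those which do, the order of some `b j` modulo `p` is a divisor `t` of
`s j`, and few primes of the window are `1` modulo `t` and divide `b j ^ t - 1` (for small `t` since
`b j ^ t - 1` has few prime factors, for large `t` since few numbers are `1` modulo `t`).

Definitions: `T` (the odd numbers from `11` to `27`) and `zeta` (`ζ(j) = ∑ 1/(n+1)^j`) are in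
`Pool.Agent.Zk75.ZM.Final`, `digit` is in `Pool.Agent.Zk75.ZM.Digits`.
-/

set_option autoImplicit false

namespace Pool.Agent.Results.MP_4f096c_nt.PeriodicExpansions

open Pool.Agent.Zk75.ZM

/-- 1. For all bases `b j ≥ 2` there is `c > 0` such that the numbers
   `a j / (b j ^ r j (b j ^ s j - 1))`, with the least common multiple `q` of the denominators,
   satisfy `|ζ(j) - a j / (b j ^ r j (b j ^ s j - 1))| ≥ c q^(-696)` for some `j` in `T`.
2. For all bases `b j ≥ 2` there is `C` such that: if for all `j` in `T` the digits of `ζ(j)` in base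
   `b j` are periodic with period `s j` from the place `r j + 1` to the place `R j`, then
   `R j log (b j) ≤ 696 log q + C` for some `j`, with the same `q`.
3. In one base: if the digits of all the nine numbers are periodic with period `s` from the place
   `r + 1` to the place `R`, then `R ≤ 696 (r + s) + C`. -/
theorem result :
    (∀ b : ℕ → ℕ, (∀ j ∈ T, 2 ≤ b j) → ∃ c : ℝ, 0 < c ∧
      ∀ (r s : ℕ → ℕ) (a : ℕ → ℤ), (∀ j ∈ T, 1 ≤ s j) → ∃ j ∈ T,
        c / ((T.lcm (fun j => b j ^ r j * (b j ^ s j - 1)) : ℕ) : ℝ) ^ 696 ≤
          |zeta j - (a j : ℝ) / ((b j ^ r j * (b j ^ s j - 1) : ℕ) : ℝ)|) ∧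
    (∀ b : ℕ → ℕ, (∀ j ∈ T, 2 ≤ b j) → ∃ C : ℝ, ∀ r s R : ℕ → ℕ, (∀ j ∈ T, 1 ≤ s j) →
      (∀ j ∈ T, ∀ i, r j < i → i + s j ≤ R j →
        digit (b j) (zeta j) (i + s j) = digit (b j) (zeta j) i) →
      ∃ j ∈ T, R j * Real.log (b j) ≤
        696 * Real.log (T.lcm (fun j => b j ^ r j * (b j ^ s j - 1)) : ℕ) + C) ∧
    ∀ b : ℕ, 2 ≤ b → ∃ C : ℝ, ∀ r s R : ℕ, 1 ≤ s →
      (∀ j ∈ T, ∀ i, r < i → i + s ≤ R → digit b (zeta j) (i + s) = digit b (zeta j) i) →
      (R : ℝ) ≤ 696 * (r + s) + C :=
  ⟨periodic_denominators, periodic_digits, periodic_digits_one⟩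

end Pool.Agent.Results.MP_4f096c_nt.PeriodicExpansions
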