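import Mathlib
import Pool.Agent.Zk75.ZM.Final

/-!
# Simultaneous approximation of `ζ(11), …, ζ(27)` by rational numbers with restricted denominators

The starting file `MeasureZeta11To27` shows that rational numbers with a common denominator `q`
cannot approximate all the nine numbers `ζ(11), ζ(13), …, ζ(27)` with an error below `c q^(-1628)`.
Here the exponent is `696` if the denominators contain no high powers of large primes; more
precisely there is a lower bound for every prime `p = 1 mod 24` whose `j`-th power does not divide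
the denominator of the approximation of `ζ(j)`.

Definitions: `T` (the odd numbers from `11` to `27`) and `zeta` (`ζ(j) = ∑ 1/(n+1)^j`) are in
`Pool.Agent.Zk75.ZM.Final`.
-/

set_option autoImplicit false

namespace Pool.Agent.Results.MP_4f096c_nt.RestrictedDenominators

open Pool.Agent.Zk75.ZM

/-- `v j`, `j ∈ T`, are rational numbers with the common denominator `q`.

1. If `p = 1 mod 24` is a prime, `q ≤ exp (1.84 p)` and `p ^ j` does not divide the (reduced)
   denominator of `v j` for the `j` in `T`, then `|ζ(j) - v j| ≥ c exp (-1280.4 p)` for some `j`.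
2. If for all primes `p > (log q) / 2` and all `j` in `T` the number `p ^ j` does not divide the
   denominator of `v j` (for instance if `q` is not divisible by the `11`-th power of a prime
   `> (log q) / 2`; so for all `q` without eleventh powers, for the powers of a fixed number,
   for the large factorials), then `|ζ(j) - v j| ≥ c q^(-696)` for some `j`. -/
theorem result :
    (∃ c : ℝ, 0 < c ∧ ∀ (p : ℕ) (v : ℕ → ℚ) (q : ℕ), p.Prime → p % 24 = 1 → 0 < q →
      (∀ j ∈ T, (v j).den ∣ q) → Real.log q ≤ 1.84 * p → (∀ j ∈ T, ¬ p ^ j ∣ (v j).den) →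
      ∃ j ∈ T, c * Real.exp (-(1280.4 * p)) ≤ |zeta j - v j|) ∧
    (∃ c : ℝ, 0 < c ∧ ∀ (v : ℕ → ℚ) (q : ℕ), 0 < q → (∀ j ∈ T, (v j).den ∣ q) →
      (∀ p : ℕ, p.Prime → Real.log q < 2 * p → ∀ j ∈ T, ¬ p ^ j ∣ (v j).den) →
      ∃ j ∈ T, c / (q : ℝ) ^ 696 ≤ |zeta j - v j|) :=
  ⟨prime_bound, plain_denominators⟩

end Pool.Agent.Results.MP_4f096c_nt.RestrictedDenominators
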